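import Mathlib

/-!
# The conjectured explicit bounds for positive integer solutions of `σ₃ = σₙ` fail

For every `n ≥ 11` the tuple `(1, …, 1, 2, n - 1, (n-2)(3n-5)/2, e)` with `n - 4` ones and
`e = (27 n⁴ - 190 n³ + 471 n² - 500 n + 216) / 12` is a solution of `σ₃ = σₙ` whose common
value `m` is larger than the conjectured upper bound for `m`, a polynomial of degree `6` in
`n` (the difference is `(27/4) (n-4)(n-5)⋯(n-10)`).
-/

namespace Pool.Agent.Results.MP_c4e411_nt.SigmaThreeBoundFails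

/-- `sigma i x` is the `i`-th elementary symmetric polynomial of the entries of the
`n`-tuple `x` of natural numbers: the sum over all `i`-element sets `s` of indices of the
product of the entries with index in `s`. -/
def sigma {n : ℕ} (i : ℕ) (x : Fin n → ℕ) : ℕ :=
  ∑ s ∈ Finset.powersetCard i (Finset.univ : Finset (Fin n)), ∏ j ∈ s, x j

lemma sigma_eq_esymm {n : ℕ} (i : ℕ) (x : Fin n → ℕ) :
    sigma i x = ((List.ofFn x : List ℕ) : Multiset ℕ).esymm i := by
  have h : ((List.ofFn x : List ℕ) : Multiset ℕ) = (Finset.univ : Finset (Fin n)).val.map x := by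
    simp [List.ofFn_eq_map]
  rw [h, Finset.esymm_map_val]
  rfl

lemma esymm_zero' (s : Multiset ℕ) : s.esymm 0 = 1 := by
  simp [Multiset.esymm]

lemma esymm_cons (a : ℕ) (s : Multiset ℕ) (k : ℕ) :
    (a ::ₘ s).esymm (k + 1) = s.esymm (k + 1) + a * s.esymm k := by
  simp [Multiset.esymm, Multiset.powersetCard_cons, Multiset.map_map, Multiset.sum_map_mul_left]

lemma esymm_ones (m k : ℕ) : (Multiset.replicate m 1).esymm k = m.choose k := by
  induction m generalizing k with
  | zero =>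
    cases k with
    | zero => simp [Multiset.esymm]
    | succ k =>
      simp [Multiset.esymm, Multiset.powersetCard_zero_right]
  | succ m ih =>
    cases k with
    | zero => simp [Multiset.esymm]
    | succ k =>
      rw [Multiset.replicate_succ, esymm_cons, ih, ih, Nat.choose_succ_succ]
      ring

/-- The tuple with `m` ones followed by `a, b, c, d`. -/
def tup (m a b c d : ℕ) : Fin (m + 4) → ℕ := fun i =>
  if (i : ℕ) < m then 1 else if (i : ℕ) = m then a else if (i : ℕ) = m + 1 then b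
    else if (i : ℕ) = m + 2 then c else d

lemma ofFn_tup (m a b c d : ℕ) :
    ((List.ofFn (tup m a b c d) : List ℕ) : Multiset ℕ) =
      d ::ₘ c ::ₘ b ::ₘ a ::ₘ Multiset.replicate m 1 := by
  have h4 : List.ofFn (tup m a b c d) = List.replicate m 1 ++ [a, b, c, d] := by
    rw [List.ofFn_succ', List.ofFn_succ', List.ofFn_succ', List.ofFn_succ']
    have h : (List.ofFn fun i : Fin m => tup m a b c d
        (Fin.castSucc (Fin.castSucc (Fin.castSucc (Fin.castSucc i))))) = List.replicate m 1 := by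
      rw [← List.ofFn_const]
      congr 1
      funext i
      simp [tup]
    rw [h]
    simp [tup]
  rw [h4, ← Multiset.coe_add]
  have : ((List.replicate m 1 : List ℕ) : Multiset ℕ) = Multiset.replicate m 1 := rfl
  rw [this]
  have h5 : (([a, b, c, d] : List ℕ) : Multiset ℕ) = a ::ₘ b ::ₘ c ::ₘ d ::ₘ 0 := rfl
  rw [h5]
  rw [add_comm]
  simp only [Multiset.cons_add, zero_add]
  rw [Multiset.cons_swap c d, Multiset.cons_swap b d, Multiset.cons_swap a d,
    Multiset.cons_swap b c, Multiset.cons_swap a c, Multiset.cons_swap a b]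

lemma sigma_top {n : ℕ} (x : Fin n → ℕ) : sigma n x = ∏ i, x i := by
  unfold sigma
  have h : Finset.powersetCard n (Finset.univ : Finset (Fin n)) = {Finset.univ} := by
    have := Finset.powersetCard_self (Finset.univ : Finset (Fin n))
    rwa [Finset.card_univ, Fintype.card_fin] at this
  rw [h]
  simp

lemma prod_tup (m a b c d : ℕ) : ∏ i, tup m a b c d i = a * b * c * d := by
  have h : ∏ i, tup m a b c d i = ((List.ofFn (tup m a b c d) : List ℕ) : Multiset ℕ).prod := by
    rw [Multiset.prod_coe, List.prod_ofFn]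
  rw [h, ofFn_tup]
  simp
  ring

/-- `σ₃` of the tuple `tup m a b c d`. -/
lemma sigma_three_tup (m a b c d : ℕ) :
    sigma 3 (tup m a b c d) =
      (m.choose 3 + m.choose 2 * (a + b + c) + m * (a * b + a * c + b * c) + a * b * c)
        + d * (m.choose 2 + m * (a + b + c) + (a * b + a * c + b * c)) := by
  rw [sigma_eq_esymm, ofFn_tup]
  simp only [esymm_cons, esymm_zero', esymm_ones, Nat.choose_one_right, zero_add]
  ring

/-- **Failure of the conjectured bound.**  For every `n ≥ 11` there is a non-decreasing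
`n`-tuple `x` of positive integers with `σ₃(x) = σₙ(x)` whose common value `m = σₙ(x)`
exceeds `(3021 n⁶ - 77575 n⁵ + 920361 n⁴ - 6235705 n³ + 24764202 n² - 53664304 n
+ 48986640) / 12`. -/
theorem result (n : ℕ) (hn : 11 ≤ n) :
    ∃ x : Fin n → ℕ, Monotone x ∧ (∀ i, 0 < x i) ∧ sigma 3 x = sigma n x ∧
      (1 / 12 : ℝ) * (3021 * (n : ℝ) ^ 6 - 77575 * (n : ℝ) ^ 5 + 920361 * (n : ℝ) ^ 4
        - 6235705 * (n : ℝ) ^ 3 + 24764202 * (n : ℝ) ^ 2 - 53664304 * (n : ℝ) + 48986640)
        < (sigma n x : ℝ) := by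
  obtain ⟨m, rfl⟩ : ∃ m, n = m + 4 := ⟨n - 4, by omega⟩
  have hm : 7 ≤ m := by omega
  obtain ⟨c, hc⟩ : ∃ c, c = m.choose 2 + m ^ 2 + 7 * m + 7 := ⟨_, rfl⟩
  obtain ⟨d, hd⟩ : ∃ d, d = m.choose 3 + m.choose 2 * (2 + (m + 3) + c)
      + m * (2 * (m + 3) + 2 * c + (m + 3) * c) + 2 * (m + 3) * c := ⟨_, rfl⟩
  have hcm : m + 3 ≤ c := by
    rw [hc]; nlinarith
  have hdc : c ≤ d := by
    rw [hd]
    have : c ≤ 2 * (m + 3) * c := by nlinarith
    omega
  refine ⟨tup m 2 (m + 3) c d, ?_, ?_, ?_, ?_⟩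
  · intro i j hij
    have hij' : (i : ℕ) ≤ (j : ℕ) := hij
    have hj := j.isLt
    have hi := i.isLt
    unfold tup
    split_ifs <;> omega
  · intro i
    unfold tup
    split_ifs <;> omega
  · rw [sigma_top, prod_tup, sigma_three_tup, ← hd]
    have key : 1 + (m.choose 2 + m * (2 + (m + 3) + c) + (2 * (m + 3) + 2 * c + (m + 3) * c))
        = 2 * (m + 3) * c := by
      nlinarith [hc]
    calc d + d * (m.choose 2 + m * (2 + (m + 3) + c) + (2 * (m + 3) + 2 * c + (m + 3) * c))
        = d * (1 + (m.choose 2 + m * (2 + (m + 3) + c)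
            + (2 * (m + 3) + 2 * c + (m + 3) * c))) := by ring
      _ = 2 * (m + 3) * c * d := by rw [key]; ring
  · rw [sigma_top, prod_tup]
    have h2 : (m.choose 2 : ℝ) = (m : ℝ) * (m - 1) / 2 := by
      rw [Nat.cast_choose_two]
    have h3 : (m.choose 3 : ℝ) = (m : ℝ) * (m - 1) * (m - 2) / 6 := by
      have hnat : m.choose 3 * 3 = m.choose 2 * (m - 2) := Nat.choose_succ_right_eq m 2
      have h2m : 2 ≤ m := by omega
      have hreal : (m.choose 3 : ℝ) * 3 = (m.choose 2 : ℝ) * ((m : ℝ) - 2) := by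
        have := congrArg (Nat.cast : ℕ → ℝ) hnat
        push_cast [Nat.cast_sub h2m] at this
        exact this
      rw [h2] at hreal
      linarith
    have hcr : (c : ℝ) = (3 * m + 7) * (m + 2) / 2 := by
      rw [hc]; push_cast; rw [h2]; ring
    have hdr : (d : ℝ) = (27 * ((m : ℝ) + 4) ^ 4 - 190 * ((m : ℝ) + 4) ^ 3
        + 471 * ((m : ℝ) + 4) ^ 2 - 500 * ((m : ℝ) + 4) + 216) / 12 := by
      rw [hd]; push_cast; rw [h2, h3, hcr]; ring
    obtain ⟨k, hk⟩ : ∃ k : ℕ, m = k + 7 := ⟨m - 7, by omega⟩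
    have hk0 : (0 : ℝ) ≤ (k : ℝ) := Nat.cast_nonneg k
    have hmr : (m : ℝ) = (k : ℝ) + 7 := by rw [hk]; push_cast; ring
    push_cast
    rw [hdr, hcr, hmr]
    have hpos : 0 < 34020 + 88209 * (k : ℝ) + 88641 * (k : ℝ) ^ 2 + 182763 / 4 * (k : ℝ) ^ 3
        + 13230 * (k : ℝ) ^ 4 + 4347 / 2 * (k : ℝ) ^ 5 + 189 * (k : ℝ) ^ 6
        + 27 / 4 * (k : ℝ) ^ 7 := by positivity
    rw [← sub_pos]
    calc (0 : ℝ) < _ := hpos
      _ = _ := by ring

end Pool.Agent.Results.MP_c4e411_nt.SigmaThreeBoundFails
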